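import Pool.Agent.Helper69.OP.StepOf
import Pool.Agent.Helper8.OP.StBdF
import Pool.Agent.Helper82.OP.Conv
import Pool.Agent.Helper28.OP.Crude
import Pool.Agent.Helper69.OP.Sq

/-!
# OP, block O5d: the smoothing step for the statistic
-/

set_option autoImplicit false
open MeasureTheory Set Filter Topology
open Pool.Agent.Helper57.Zeta Pool.Agent.Helper57.LH Pool.Agent.Helper57.ED
open Pool.Agent.Helper93.UG (zc sp)

namespace Pool.Agent.Helper62.OP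

/-- O5d -/
theorem step_st {k d : ℝ} (hk : 0 < k) (hkd : k ≤ d / 100) (hd : 0 < d) (hd1 : d ≤ 1) (η e' : ℝ) (hη : 0 < η) (he' : 0 < e')
    (he1 : e' ≤ 1) :
    ∃ C T₀ : ℝ, 1 ≤ C ∧ ∀ T R L : ℝ, T₀ ≤ T → C ≤ L → Rng d T R L → ∀ (F : Fam R L) (A ε : ℝ), F.B ≤ L ^ e' → 0 < ε → ε ≤ 2 →
      |A| ≤ L ^ (3 * e') →
      volume {t : ℝ | t ∈ Icc (T + √T) (2 * T - √T) ∧ ε + η < |Ev F (Nt k T R L t) - Ev F id - A|} ≤
        ENNReal.ofReal (L ^ (4 * e')) * volume {t : ℝ | T ≤ t ∧ t ≤ 2 * T ∧ ε < |St F T t - Ev F id - A|} +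
          ENNReal.ofReal (C * L ^ (-10 : ℝ) * T) :=
  step_st_of hk hkd hd hd1 η e' hη he' he1 (Pool.Agent.Helper8.OP.st_bd hd hd1 e' 30 he' (by norm_num))
    (Pool.Agent.Helper69.OP.st_sq hd hd1) Pool.Agent.Helper28.OP.st_crude
    (fun F _ hT => Pool.Agent.Helper82.OP.st_meas F hT)
    (fun hR hRL hT F t => Pool.Agent.Helper82.OP.conv_id hR hRL hT F t)
    (fun hR hRL hT => Pool.Agent.Helper82.OP.rho_facts hR hRL hT)

end Pool.Agent.Helper62.OP
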