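import Pool.Agent.Helper62.OP.Defs

/-!
# OP, block O5c: the smoothing step, abstract form

If `|f| ≤ e` on `[T, 2 T]` outside of a small set, then the convolution of `f` with a probability density is at most
`e + η` in absolute value on `[T + √T, 2 T - √T]`, outside of a small set.
-/

set_option autoImplicit false
open MeasureTheory Set Filter Topology

namespace Pool.Agent.Helper62.OP

/-- the bad part of `|f|` -/
noncomputable def bd (f : ℝ → ℝ) (e : ℝ) : ℝ → ENNReal :=
  {t : ℝ | e < |f t|}.indicator fun t => ENNReal.ofReal |f t|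

lemma bd_meas {f : ℝ → ℝ} (hf : Measurable f) (e : ℝ) : Measurable (bd f e) := by
  unfold bd
  refine Measurable.indicator ?_ (measurableSet_lt measurable_const ?_)
  · exact hf.norm.ennreal_ofReal
  · exact hf.norm

lemma le_bd (f : ℝ → ℝ) {e : ℝ} (t : ℝ) : ENNReal.ofReal |f t| ≤ ENNReal.ofReal e + bd f e t := by
  unfold bd
  by_cases h : e < |f t|
  · rw [indicator_of_mem (show t ∈ {t : ℝ | e < |f t|} from h)]
    exact le_add_self
  · rw [indicator_of_notMem (show t ∉ {t : ℝ | e < |f t|} from h), add_zero]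
    exact ENNReal.ofReal_le_ofReal (not_lt.1 h)

lemma bd_le (f : ℝ → ℝ) {e : ℝ} (t : ℝ) : bd f e t ≤ ENNReal.ofReal |f t| := by
  unfold bd
  exact indicator_le_self _ _ t

/-- pointwise -/
lemma pt_le {ρ f : ℝ → ℝ} (hk0 : ∀ v, 0 ≤ ρ v) (hkm : Measurable ρ) (hki : Integrable ρ) (hk1 : ∫ v, ρ v = 1)
    {e t : ℝ} :
    ENNReal.ofReal |∫ v, ρ v * f (t + v)| ≤ ENNReal.ofReal e + ∫⁻ v, ENNReal.ofReal (ρ v) * bd f e (t + v) := by
  have hk2 : ∫⁻ v, ENNReal.ofReal (ρ v) = 1 := by
    rw [← ofReal_integral_eq_lintegral_ofReal hki (ae_of_all _ hk0), hk1, ENNReal.ofReal_one]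
  calc ENNReal.ofReal |∫ v, ρ v * f (t + v)|
      = ‖∫ v, ρ v * f (t + v)‖ₑ := by rw [← Real.norm_eq_abs, ofReal_norm]
    _ ≤ ∫⁻ v, ‖ρ v * f (t + v)‖ₑ := enorm_integral_le_lintegral_enorm _
    _ ≤ ∫⁻ v, (ENNReal.ofReal e * ENNReal.ofReal (ρ v) + ENNReal.ofReal (ρ v) * bd f e (t + v)) := by
        refine lintegral_mono fun v => ?_
        simp only
        rw [← ofReal_norm, Real.norm_eq_abs, abs_mul, abs_of_nonneg (hk0 v), ENNReal.ofReal_mul (hk0 v)]
        have h3 := mul_le_mul_right (le_bd f (e := e) (t + v)) (ENNReal.ofReal (ρ v))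
        refine h3.trans (le_of_eq ?_)
        rw [mul_add, mul_comm (ENNReal.ofReal (ρ v)) (ENNReal.ofReal e)]
    _ = ENNReal.ofReal e + ∫⁻ v, ENNReal.ofReal (ρ v) * bd f e (t + v) := by
        rw [lintegral_add_left (hkm.ennreal_ofReal.const_mul _), lintegral_const_mul _ hkm.ennreal_ofReal, hk2, mul_one]

/-- O5c: the smoothing step, abstract -/
theorem smooth_step {ρ f : ℝ → ℝ} {T e η : ℝ} (_ : 1 ≤ T) (hη : 0 < η) (he : 0 < e) (hρ : ∀ v, 0 ≤ ρ v)
    (hρm : Measurable ρ) (hρ1 : ∫ v, ρ v = 1) (hρi : Integrable ρ) (hf : Measurable f)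
    (hi : ∀ t ∈ Icc (T + √T) (2 * T - √T), Integrable fun v => ρ v * f (t + v))
    (ht : ∀ t ∈ Icc (T + √T) (2 * T - √T), ∫ v in {v : ℝ | √T < |v|}, ρ v * |f (t + v)| ≤ η / 2) :
    ENNReal.ofReal (η / 2) * volume {t : ℝ | t ∈ Icc (T + √T) (2 * T - √T) ∧ e + η < |∫ v, ρ v * f (t + v)|} ≤
      ∫⁻ t in {t : ℝ | t ∈ Icc T (2 * T) ∧ e < |f t|}, ENNReal.ofReal |f t| := by
  obtain ⟨V, hV⟩ : ∃ V : Set ℝ, V = {v : ℝ | √T < |v|} := ⟨_, rfl⟩
  have hVm : MeasurableSet V := by
    rw [hV]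
    exact measurableSet_lt measurable_const measurable_norm
  rw [← hV] at ht
  obtain ⟨A, hA⟩ : ∃ A : Set ℝ, A = Icc (T + √T) (2 * T - √T) := ⟨_, rfl⟩
  rw [← hA] at hi ht ⊢
  have hgm := bd_meas hf e
  have hFm : Measurable fun p : ℝ × ℝ => ENNReal.ofReal (ρ p.2) * bd f e (p.1 + p.2) :=
    (hρm.ennreal_ofReal.comp measurable_snd).mul (hgm.comp (measurable_fst.add measurable_snd))
  obtain ⟨near, hnear⟩ : ∃ near : ℝ → ENNReal, near = fun t => ∫⁻ v in Vᶜ, ENNReal.ofReal (ρ v) * bd f e (t + v) := ⟨_, rfl⟩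
  have hnm : Measurable near := by
    rw [hnear]
    exact hFm.lintegral_prod_right'
  have hfar : ∀ t ∈ A, ∫⁻ v in V, ENNReal.ofReal (ρ v) * bd f e (t + v) ≤ ENNReal.ofReal (η / 2) := by
    intro t htA
    have h1 : Integrable fun v => ρ v * |f (t + v)| := by
      have h2 := (hi t htA).norm
      refine h2.congr (ae_of_all _ fun v => ?_)
      simp only [Real.norm_eq_abs, abs_mul, abs_of_nonneg (hρ v)]
    calc ∫⁻ v in V, ENNReal.ofReal (ρ v) * bd f e (t + v)
        ≤ ∫⁻ v in V, ENNReal.ofReal (ρ v * |f (t + v)|) := by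
          refine lintegral_mono fun v => ?_
          simp only
          rw [ENNReal.ofReal_mul (hρ v)]
          exact mul_le_mul_right (bd_le f (t + v)) _
      _ = ENNReal.ofReal (∫ v in V, ρ v * |f (t + v)|) := by
          rw [ofReal_integral_eq_lintegral_ofReal h1.integrableOn
            (ae_of_all _ fun v => mul_nonneg (hρ v) (abs_nonneg _))]
      _ ≤ ENNReal.ofReal (η / 2) := ENNReal.ofReal_le_ofReal (ht t htA)
  have h1 : ∀ t ∈ {t : ℝ | t ∈ A ∧ e + η < |∫ v, ρ v * f (t + v)|}, ENNReal.ofReal (η / 2) ≤ near t := by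
    rintro t ⟨ht1, ht3⟩
    have h2 := pt_le hρ hρm hρi hρ1 (f := f) (e := e) (t := t)
    have h3 : ENNReal.ofReal (e + η) < ENNReal.ofReal |∫ v, ρ v * f (t + v)| := by
      rw [ENNReal.ofReal_lt_ofReal_iff (lt_of_le_of_lt (by linarith) ht3)]
      exact ht3
    rw [ENNReal.ofReal_add he.le hη.le] at h3
    have h4 : ENNReal.ofReal η < ∫⁻ v, ENNReal.ofReal (ρ v) * bd f e (t + v) :=
      (ENNReal.add_lt_add_iff_left ENNReal.ofReal_ne_top).1 (h3.trans_le h2)
    rw [← lintegral_add_compl _ hVm] at h4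
    have h6 : ENNReal.ofReal η = ENNReal.ofReal (η / 2) + ENNReal.ofReal (η / 2) := by
      rw [← ENNReal.ofReal_add (by linarith) (by linarith)]
      congr 1
      ring
    rw [h6] at h4
    have h7 : ENNReal.ofReal (η / 2) + ENNReal.ofReal (η / 2) ≤ ENNReal.ofReal (η / 2) + near t := by
      refine h4.le.trans ?_
      rw [hnear]
      exact add_le_add (hfar t ht1) le_rfl
    exact (ENNReal.add_le_add_iff_left ENNReal.ofReal_ne_top).1 h7
  have h2 : volume {t : ℝ | t ∈ A ∧ e + η < |∫ v, ρ v * f (t + v)|} ≤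
      (volume.restrict A) {t | ENNReal.ofReal (η / 2) ≤ near t} := by
    rw [Measure.restrict_apply (measurableSet_le measurable_const hnm)]
    exact measure_mono fun t ht => ⟨h1 t ht, ht.1⟩
  have h3 := mul_meas_ge_le_lintegral (μ := volume.restrict A) hnm (ENNReal.ofReal (η / 2))
  have h4 : ∫⁻ t in A, near t ≤ ∫⁻ t in Icc T (2 * T), bd f e t := by
    rw [hnear]
    rw [lintegral_lintegral_swap hFm.aemeasurable]
    calc ∫⁻ v in Vᶜ, ∫⁻ t in A, ENNReal.ofReal (ρ v) * bd f e (t + v)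
        ≤ ∫⁻ v in Vᶜ, ENNReal.ofReal (ρ v) * ∫⁻ t in Icc T (2 * T), bd f e t := by
          refine setLIntegral_mono ?_ fun v hv => ?_
          · exact hρm.ennreal_ofReal.mul_const _
          · have hgm2 : Measurable fun t => bd f e (t + v) := hgm.comp (measurable_add_const v)
            rw [lintegral_const_mul _ hgm2]
            refine mul_le_mul_right ?_ _
            have hv' : |v| ≤ √T := by
              rw [hV] at hv
              exact not_lt.1 hv
            have hmp := measurePreserving_add_right volume v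
            have h5 := hmp.setLIntegral_comp_preimage_emb (measurableEmbedding_addRight v) (bd f e) (Icc (T + √T + v) (2 * T - √T + v))
            have h6 : (fun x : ℝ => x + v) ⁻¹' Icc (T + √T + v) (2 * T - √T + v) = A := by
              rw [Set.preimage_add_const_Icc, hA]
              congr 1 <;> ring
            rw [h6] at h5
            rw [h5]
            refine lintegral_mono_set (Icc_subset_Icc ?_ ?_)
            · linarith [(abs_le.1 hv').1]
            · linarith [(abs_le.1 hv').2]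
      _ ≤ ∫⁻ v, ENNReal.ofReal (ρ v) * ∫⁻ t in Icc T (2 * T), bd f e t := setLIntegral_le_lintegral _ _
      _ = ∫⁻ t in Icc T (2 * T), bd f e t := by
          rw [lintegral_mul_const _ hρm.ennreal_ofReal, ← ofReal_integral_eq_lintegral_ofReal hρi (ae_of_all _ hρ), hρ1,
            ENNReal.ofReal_one, one_mul]
  have h5 : ∫⁻ t in Icc T (2 * T), bd f e t = ∫⁻ t in {t : ℝ | t ∈ Icc T (2 * T) ∧ e < |f t|}, ENNReal.ofReal |f t| := by
    unfold bd
    have hm : MeasurableSet {t : ℝ | e < |f t|} := measurableSet_lt measurable_const hf.norm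
    rw [setLIntegral_indicator hm]
    congr 2
    ext t
    simp only [mem_inter_iff, mem_ofPred_eq]
    exact and_comm
  rw [← h5]
  calc ENNReal.ofReal (η / 2) * volume {t : ℝ | t ∈ A ∧ e + η < |∫ v, ρ v * f (t + v)|}
      ≤ ENNReal.ofReal (η / 2) * (volume.restrict A) {t | ENNReal.ofReal (η / 2) ≤ near t} := mul_le_mul_right h2 _
    _ ≤ _ := h3.trans h4

end Pool.Agent.Helper62.OP
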